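import Pool.Agent.SQD.Stmts

/-!
# Squad SQD, row CNX: large exceptional `d`
-/

set_option autoImplicit false

open Filter

open scoped BigOperators Topology

noncomputable section

namespace Pool.Agent.SQD.H62

/-- the growth condition -/
theorem grow (A : ℕ) : ∀ᶠ x : ℕ in atTop, 2 ≤ Real.log x ∧
    2 * (Real.log x) ^ (A + 1) ≤ Real.exp (3 * (Real.log x) ^ (1 / 16 : ℝ) / 4) := by
  have h1 : Tendsto (fun x : ℕ => Real.log x) atTop atTop :=
    Real.tendsto_log_atTop.comp tendsto_natCast_atTop_atTop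
  have h2 : Tendsto (fun x : ℕ => (Real.log x) ^ (1 / 16 : ℝ)) atTop atTop :=
    (tendsto_rpow_atTop (by norm_num)).comp h1
  have h3 : Tendsto (fun x : ℕ => 3 * (Real.log x) ^ (1 / 16 : ℝ) / 4) atTop atTop := by
    have : (fun x : ℕ => 3 * (Real.log x) ^ (1 / 16 : ℝ) / 4) =
        fun x : ℕ => (3 / 4 : ℝ) * (Real.log x) ^ (1 / 16 : ℝ) := by
      funext x
      ring
    rw [this]
    exact h2.const_mul_atTop (by norm_num)
  have h4 := ((Real.tendsto_pow_mul_exp_neg_atTop_nhds_zero (16 * (A + 1))).comp h3).const_mul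
    (2 * (4 / 3 : ℝ) ^ (16 * (A + 1)))
  rw [mul_zero] at h4
  have h5 := h4.eventually (Iio_mem_nhds (show (0 : ℝ) < 1 by norm_num))
  filter_upwards [h5, h1.eventually_ge_atTop 2] with x hx hx2
  refine ⟨hx2, ?_⟩
  have h0 : (0 : ℝ) ≤ Real.log x := by linarith
  obtain ⟨e, he⟩ : ∃ e : ℝ, e = (Real.log x) ^ (1 / 16 : ℝ) := ⟨_, rfl⟩
  have he16 : e ^ 16 = Real.log x := by
    rw [he, ← Real.rpow_natCast, ← Real.rpow_mul h0]
    norm_num
  change (2 * (4 / 3 : ℝ) ^ (16 * (A + 1))) * ((3 * (Real.log x) ^ (1 / 16 : ℝ) / 4) ^ (16 * (A + 1))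
    * Real.exp (-(3 * (Real.log x) ^ (1 / 16 : ℝ) / 4))) < 1 at hx
  rw [← he] at hx ⊢
  have h6 : (2 * (4 / 3 : ℝ) ^ (16 * (A + 1))) * ((3 * e / 4) ^ (16 * (A + 1)) *
      Real.exp (-(3 * e / 4))) = 2 * (Real.log x) ^ (A + 1) * Real.exp (-(3 * e / 4)) := by
    rw [← he16, ← pow_mul, mul_assoc, ← mul_assoc ((4 / 3 : ℝ) ^ (16 * (A + 1))), ← mul_pow]
    have : (4 / 3 : ℝ) * (3 * e / 4) = e := by ring
    rw [this]
    ring
  rw [h6, Real.exp_neg, ← div_eq_mul_inv, div_lt_one (Real.exp_pos _)] at hx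
  exact hx.le

theorem cnx (smt : SmtStmt) : CnxStmt := by
  classical
  intro A
  obtain ⟨x₀, hx₀⟩ := eventually_atTop.1 (grow A)
  refine ⟨max x₀ 1, fun x hx => ?_⟩
  obtain ⟨hl2, hg⟩ := hx₀ x (le_trans (le_max_left _ _) hx)
  have hx1 : 1 ≤ x := le_trans (le_max_right _ _) hx
  have hxR : (0 : ℝ) < x := by exact_mod_cast hx1
  obtain ⟨ℓ, hℓ⟩ : ∃ ℓ : ℝ, ℓ = Real.log x := ⟨_, rfl⟩
  obtain ⟨e, he⟩ : ∃ e : ℝ, e = (Real.log x) ^ (1 / 16 : ℝ) := ⟨_, rfl⟩
  obtain ⟨w, hw⟩ : ∃ w : ℕ, w = wq A x := ⟨_, rfl⟩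
  obtain ⟨z, hz⟩ : ∃ z : ℕ, z = zq x := ⟨_, rfl⟩
  have hwl : ℓ ^ (A + 3) ≤ w := by
    rw [hw, hℓ]
    exact Nat.le_ceil _
  have hzl : (z : ℝ) ≤ Real.exp (e / 8) := by
    rw [hz, he]
    exact Nat.floor_le (Real.exp_pos _).le
  rw [← hℓ] at hl2
  rw [← he, ← hℓ] at hg
  rw [← hw, ← hz, ← he, ← hℓ]
  have hl0 : 0 < ℓ := by linarith
  have hw2R : (2 : ℝ) ≤ w := by
    refine le_trans ?_ hwl
    calc (2 : ℝ) ≤ ℓ := hl2
      _ = ℓ ^ 1 := (pow_one ℓ).symm
      _ ≤ ℓ ^ (A + 3) := pow_le_pow_right₀ (by linarith) (by omega)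
  have hw2 : 2 ≤ w := by exact_mod_cast hw2R
  have hz2 : (z : ℝ) ^ 2 ≤ Real.exp (e / 4) := by
    calc (z : ℝ) ^ 2 ≤ (Real.exp (e / 8)) ^ 2 := by gcongr
      _ = Real.exp (e / 4) := by
        rw [← Real.exp_nat_mul]
        congr 1
        push_cast
        ring
  -- the bound for the term
  obtain ⟨B, hB⟩ : ∃ B : ℝ, B = x * (1 / ℓ ^ (A + 3) + 1 / ℓ ^ (A + 1)) := ⟨_, rfl⟩
  have hB0 : 0 ≤ B := by
    rw [hB]
    positivity
  obtain ⟨E, hE⟩ : ∃ E : ℕ → Finset ℕ, E = fun j => (Finset.Ico (2 ^ j) (2 * 2 ^ j)).filter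
    (fun d : ℕ => Real.exp e < d ∧ 1 ≤ |TT w z d|) := ⟨_, rfl⟩
  have hEj : ∀ j, ((E j).biUnion (fun d => (Finset.Ioc 0 x).filter (fun n => d ∣ n))).card ≤
      B := by
    intro j
    have h1 : (((E j).biUnion (fun d => (Finset.Ioc 0 x).filter (fun n => d ∣ n))).card : ℝ) ≤
        (E j).card * (x / 2 ^ j) := by
      have h2 : ((E j).biUnion (fun d => (Finset.Ioc 0 x).filter (fun n => d ∣ n))).card ≤
          ∑ d ∈ E j, x / d := by
        refine le_trans Finset.card_biUnion_le (Finset.sum_le_sum fun d _ => ?_)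
        rw [Nat.Ioc_filter_dvd_card_eq_div]
      have h3 : ((∑ d ∈ E j, x / d : ℕ) : ℝ) ≤ ∑ d ∈ E j, (x : ℝ) / 2 ^ j := by
        push_cast
        refine Finset.sum_le_sum fun d hd => ?_
        rw [hE] at hd
        have h4 := (Finset.mem_Ico.1 (Finset.mem_filter.1 hd).1).1
        have h5 : (2 : ℝ) ^ j ≤ d := by exact_mod_cast h4
        refine le_trans Nat.cast_div_le ?_
        gcongr
      rw [Finset.sum_const, nsmul_eq_mul] at h3
      exact le_trans (by exact_mod_cast h2) h3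
    by_cases hne : (E j).Nonempty
    · obtain ⟨d, hd⟩ := hne
      rw [hE] at hd
      obtain ⟨hd1, hd2, -⟩ := Finset.mem_filter.1 hd
      have hd3 : (d : ℝ) < 2 * 2 ^ j := by exact_mod_cast (Finset.mem_Ico.1 hd1).2
      have hD : Real.exp e / 2 ≤ 2 ^ j := by linarith
      have h2 : ((E j).card : ℝ) ≤ (2 ^ j : ℕ) / w + (z : ℝ) ^ 2 := by
        refine le_trans ?_ (smt (2 ^ j) w z hw2)
        rw [← Set.ncard_coe_finset]
        have hfin : {d : ℕ | 2 ^ j ≤ d ∧ d < 2 * 2 ^ j ∧ 1 ≤ |TT w z d|}.Finite :=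
          (Set.finite_Iio (2 * 2 ^ j)).subset fun d hd => hd.2.1
        have := Set.ncard_le_ncard (s := (E j : Set ℕ)) (fun d hd => by
          rw [hE, Finset.mem_coe, Finset.mem_filter, Finset.mem_Ico] at hd
          exact ⟨hd.1.1, hd.1.2, hd.2.2⟩) hfin
        exact_mod_cast this
      push_cast at h2
      have hp : (0 : ℝ) < 2 ^ j := by positivity
      have hw0 : (0 : ℝ) < w := by linarith
      calc (((E j).biUnion (fun d => (Finset.Ioc 0 x).filter (fun n => d ∣ n))).card : ℝ)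
          ≤ (E j).card * (x / 2 ^ j) := h1
        _ ≤ (2 ^ j / w + (z : ℝ) ^ 2) * (x / 2 ^ j) := by gcongr
        _ = x * (1 / w + (z : ℝ) ^ 2 / 2 ^ j) := by
          field_simp
        _ ≤ x * (1 / ℓ ^ (A + 3) + 1 / ℓ ^ (A + 1)) := by
          have k1 : 1 / (w : ℝ) ≤ 1 / ℓ ^ (A + 3) := one_div_le_one_div_of_le (by positivity) hwl
          have k2 : (z : ℝ) ^ 2 / 2 ^ j ≤ 1 / ℓ ^ (A + 1) := by
            calc (z : ℝ) ^ 2 / 2 ^ j ≤ Real.exp (e / 4) / (Real.exp e / 2) := by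
                  gcongr
              _ = 2 / Real.exp (3 * e / 4) := by
                  have : Real.exp e = Real.exp (e / 4) * Real.exp (3 * e / 4) := by
                    rw [← Real.exp_add]
                    congr 1
                    ring
                  rw [this]
                  have h1 := (Real.exp_pos (e / 4)).ne'
                  have h2 := (Real.exp_pos (3 * e / 4)).ne'
                  field_simp
              _ ≤ 1 / ℓ ^ (A + 1) := by
                  rw [div_le_div_iff₀ (Real.exp_pos _) (by positivity)]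
                  linarith
          exact mul_le_mul_of_nonneg_left (add_le_add k1 k2) hxR.le
        _ = B := hB.symm
    · rw [Finset.not_nonempty_iff_eq_empty.1 hne, Finset.biUnion_empty, Finset.card_empty]
      exact_mod_cast hB0
  -- the union
  have hsub : {n : ℕ | 1 ≤ n ∧ n ≤ x ∧ ∃ d : ℕ, d ∣ n ∧ d * d ≤ x ∧ Real.exp e < d ∧
      1 ≤ |TT w z d|} ⊆ (((Finset.range (Nat.log 2 x + 1)).biUnion fun j =>
        (E j).biUnion (fun d => (Finset.Ioc 0 x).filter (fun n => d ∣ n)) : Finset ℕ) : Set ℕ) := by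
    rintro n ⟨hn1, hnx, d, hdn, hdd, hd1, hd2⟩
    have hd0 : d ≠ 0 := by
      rintro rfl
      have := Real.exp_pos e
      rw [Nat.cast_zero] at hd1
      linarith
    have hdx : d ≤ x := le_trans (Nat.le_of_dvd hn1 hdn) hnx
    rw [Finset.mem_coe, Finset.mem_biUnion]
    refine ⟨Nat.log 2 d, ?_, ?_⟩
    · rw [Finset.mem_range]
      exact Nat.lt_succ_of_le (Nat.log_mono_right hdx)
    · rw [Finset.mem_biUnion]
      refine ⟨d, ?_, ?_⟩
      · rw [hE, Finset.mem_filter, Finset.mem_Ico]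
        refine ⟨⟨Nat.pow_log_le_self 2 hd0, ?_⟩, hd1, hd2⟩
        have := Nat.lt_pow_succ_log_self (b := 2) (by norm_num) d
        rw [pow_succ] at this
        omega
      · rw [Finset.mem_filter, Finset.mem_Ioc]
        exact ⟨⟨hn1, hnx⟩, hdn⟩
  have hcard : ({n : ℕ | 1 ≤ n ∧ n ≤ x ∧ ∃ d : ℕ, d ∣ n ∧ d * d ≤ x ∧ Real.exp e < d ∧
      1 ≤ |TT w z d|}.ncard : ℝ) ≤ (Nat.log 2 x + 1 : ℕ) * B := by
    have h1 := Set.ncard_le_ncard hsub (Finset.finite_toSet _)
    rw [Set.ncard_coe_finset] at h1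
    have h2 : ((((Finset.range (Nat.log 2 x + 1)).biUnion fun j =>
        (E j).biUnion (fun d => (Finset.Ioc 0 x).filter (fun n => d ∣ n))) : Finset ℕ).card : ℝ) ≤
        ∑ j ∈ Finset.range (Nat.log 2 x + 1), B := by
      have h3 : ((((Finset.range (Nat.log 2 x + 1)).biUnion fun j =>
        (E j).biUnion (fun d => (Finset.Ioc 0 x).filter (fun n => d ∣ n))) : Finset ℕ).card : ℝ) ≤
          ((∑ j ∈ Finset.range (Nat.log 2 x + 1), ((E j).biUnion
            (fun d => (Finset.Ioc 0 x).filter (fun n => d ∣ n))).card : ℕ) : ℝ) := by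
        exact_mod_cast Finset.card_biUnion_le
      refine le_trans h3 ?_
      push_cast
      exact Finset.sum_le_sum fun j _ => hEj j
    rw [Finset.sum_const, Finset.card_range, nsmul_eq_mul] at h2
    exact le_trans (by exact_mod_cast h1) h2
  have hlog : ((Nat.log 2 x + 1 : ℕ) : ℝ) ≤ 3 * ℓ := by
    have h1 : (2 : ℝ) ^ (Nat.log 2 x) ≤ x := by
      exact_mod_cast Nat.pow_log_le_self 2 (by omega)
    have h2 := Real.log_le_log (by positivity) h1
    rw [Real.log_pow, ← hℓ] at h2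
    have h3 := Real.log_two_gt_d9
    have h4 : (0 : ℝ) ≤ Nat.log 2 x := Nat.cast_nonneg _
    push_cast
    nlinarith
  refine le_trans hcard ?_
  calc ((Nat.log 2 x + 1 : ℕ) : ℝ) * B ≤ (3 * ℓ) * B := by gcongr
    _ = 3 * x * (1 / ℓ ^ (A + 2) + 1 / ℓ ^ A) := by
      rw [hB]
      have e1 : 1 / ℓ ^ (A + 2) = ℓ * (1 / ℓ ^ (A + 3)) := by
        rw [pow_succ ℓ (A + 2)]
        field_simp
      have e2 : 1 / ℓ ^ A = ℓ * (1 / ℓ ^ (A + 1)) := by
        rw [pow_succ ℓ A]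
        field_simp
      rw [e1, e2]
      ring
    _ ≤ 3 * x * (1 / ℓ ^ A + 1 / ℓ ^ A) := by
      have : 1 / ℓ ^ (A + 2) ≤ 1 / ℓ ^ A := by
        apply one_div_le_one_div_of_le (by positivity)
        exact pow_le_pow_right₀ (by linarith) (by omega)
      gcongr
    _ = 6 * x / ℓ ^ A := by ring

end Pool.Agent.SQD.H62
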